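import Mathlib

/-!
# MP_645dd0_co : `H_n` is not the only extremal `K_3^3`-saturated graph of even order

For every even `n ≥ 10` the graph obtained from a friendship-type graph (a hub with `(n-4)/2`
triangles) by attaching a `K_4` at one non-hub vertex is `K_3^3`-saturated, has as many edges as
`H_n`, and is not isomorphic to `H_n`.
-/

namespace Pool.Agent.Results.MP_645dd0_co.NotUnique

open SimpleGraph

/-- `K_3^3`: a triangle `0,1,2` with a pendant vertex `i+3` attached to `i`. -/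
def net : SimpleGraph (Fin 6) where
  Adj i j := i ≠ j ∧ ((i.val < 3 ∧ j.val < 3) ∨ j.val = i.val + 3 ∨ i.val = j.val + 3)
  symm := ⟨fun i j h => ⟨h.1.symm, by omega⟩⟩
  loopless := ⟨fun i h => h.1 rfl⟩

/-- `G` is `F`-saturated. -/
def Saturated {α β : Type} (F : SimpleGraph α) (G : SimpleGraph β) : Prop :=
  ¬ F.IsContained G ∧ ∀ u v : β, u ≠ v → ¬ G.Adj u v → F.IsContained (G ⊔ SimpleGraph.edge u v)

/-- The saturation number of `K_3^3`. -/
noncomputable def sat (n : ℕ) : ℕ :=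
  sInf {m | ∃ G : SimpleGraph (Fin n), Saturated net G ∧ G.edgeSet.ncard = m}

/-- `G` is an extremal `K_3^3`-saturated graph. -/
def InSAT (n : ℕ) (G : SimpleGraph (Fin n)) : Prop :=
  Saturated net G ∧ G.edgeSet.ncard = sat n

/-- `H_n`: vertex `0` is adjacent to everything, `{1,2}, {3,4}, …, {n-5,n-4}` are edges and
`{n-3,n-2,n-1}` is a triangle. -/
def H (n : ℕ) : SimpleGraph (Fin n) where
  Adj i j := i ≠ j ∧ (i.val = 0 ∨ j.val = 0 ∨
    ((i.val + 1) / 2 = (j.val + 1) / 2 ∧ i.val + 4 ≤ n ∧ j.val + 4 ≤ n) ∨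
    (n ≤ i.val + 3 ∧ n ≤ j.val + 3))
  symm := ⟨fun i j h => ⟨h.1.symm, by omega⟩⟩
  loopless := ⟨fun i h => h.1 rfl⟩

/-- Adjacency of the new graph on natural numbers. -/
def adjN (t i j : ℕ) : Prop := i ≠ j ∧ ((i = 0 ∧ j ≤ 2 * t) ∨ (j = 0 ∧ i ≤ 2 * t) ∨
    ((i + 1) / 2 = (j + 1) / 2 ∧ i ≤ 2 * t ∧ j ≤ 2 * t) ∨ (2 * t ≤ i ∧ 2 * t ≤ j))

/-- The new graph: hub `0`, triangles `{0, 2i-1, 2i}` for `i ≤ t`, and a `K_4` on
`{2t, 2t+1, 2t+2, 2t+3}`. -/
def G (t : ℕ) : SimpleGraph (Fin (2 * t + 4)) where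
  Adj i j := adjN t i.val j.val
  symm := ⟨fun i j h => by unfold adjN at *; omega⟩
  loopless := ⟨fun i h => h.1 rfl⟩

/-- The partner of a rim vertex. -/
def pt (i : ℕ) : ℕ := if i % 2 = 1 then i + 1 else i - 1

lemma pt_spec (t i : ℕ) (h1 : 1 ≤ i) (h2 : i ≤ 2 * t) :
    1 ≤ pt i ∧ pt i ≤ 2 * t ∧ pt i ≠ i ∧ (pt i + 1) / 2 = (i + 1) / 2 := by
  unfold pt
  split_ifs <;> refine ⟨?_, ?_, ?_, ?_⟩ <;> omega

lemma pigeon (s a b c d e : ℕ) (ha : s ≤ a ∧ a ≤ s + 3) (hb : s ≤ b ∧ b ≤ s + 3)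
    (hc : s ≤ c ∧ c ≤ s + 3) (hd : s ≤ d ∧ d ≤ s + 3) (he : s ≤ e ∧ e ≤ s + 3)
    (h1 : a ≠ b) (h2 : a ≠ c) (h3 : a ≠ d) (h4 : a ≠ e) (h5 : b ≠ c) (h6 : b ≠ d) (h7 : b ≠ e)
    (h8 : c ≠ d) (h9 : c ≠ e) (h10 : d ≠ e) : False := by
  have hsub : ({a, b, c, d, e} : Finset ℕ) ⊆ Finset.Icc s (s + 3) := by
    intro x hx
    simp only [Finset.mem_insert, Finset.mem_singleton] at hx
    rw [Finset.mem_Icc]
    rcases hx with rfl | rfl | rfl | rfl | rfl
    exacts [ha, hb, hc, hd, he]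
  have h := Finset.card_le_card hsub
  rw [Nat.card_Icc] at h
  rw [Finset.card_insert_of_notMem, Finset.card_insert_of_notMem, Finset.card_insert_of_notMem,
    Finset.card_insert_of_notMem, Finset.card_singleton] at h
  · omega
  · simp [h10]
  · simp [h8, h9]
  · simp [h5, h6, h7]
  · simp [h1, h2, h3, h4]

lemma low (t x y z x' : ℕ) (h1 : adjN t x y) (h2 : adjN t x z) (h3 : adjN t x x')
    (h4 : y ≠ z) (h5 : x' ≠ y) (h6 : x' ≠ z) : ¬ (1 ≤ x ∧ x + 1 ≤ 2 * t) := by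
  rintro ⟨h7, h8⟩
  have key : ∀ w, adjN t x w → w = 0 ∨ w = pt x := by
    intro w hw
    unfold adjN at hw
    unfold pt
    split_ifs <;> omega
  rcases key y h1 with e1 | e1 <;> rcases key z h2 with e2 | e2 <;> rcases key x' h3 with e3 | e3 <;>
    omega

lemma hub (t x y z : ℕ) (ht : 1 ≤ t) (h1 : adjN t x y) (h2 : adjN t x z) (h3 : adjN t y z)
    (h4 : ¬ (1 ≤ y ∧ y + 1 ≤ 2 * t)) (h5 : ¬ (1 ≤ z ∧ z + 1 ≤ 2 * t)) : x ≠ 0 := by
  rintro rfl
  have key : ∀ w, adjN t 0 w → ¬ (1 ≤ w ∧ w + 1 ≤ 2 * t) → w = 2 * t := by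
    intro w hw hw2
    unfold adjN at hw
    omega
  exact h3.1 ((key y h1 h4).trans (key z h2 h5).symm)

lemma high (t x y : ℕ) (h : adjN t x y) (hx : 2 * t + 1 ≤ x) : 2 * t ≤ y := by
  unfold adjN at h
  omega

lemma adjN_symm (t x y : ℕ) (h : adjN t x y) : adjN t y x := by
  unfold adjN at *
  omega

lemma no_net (t a b c a' b' c' : ℕ) (ht : 1 ≤ t)
    (ha : a < 2 * t + 4) (hb : b < 2 * t + 4) (hc : c < 2 * t + 4)
    (ha' : a' < 2 * t + 4) (hb' : b' < 2 * t + 4) (hc' : c' < 2 * t + 4)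
    (hab : adjN t a b) (hbc : adjN t b c) (hac : adjN t a c)
    (haa : adjN t a a') (hbb : adjN t b b') (hcc : adjN t c c')
    (d1 : a' ≠ b) (d2 : a' ≠ c) (d3 : b' ≠ a) (d4 : b' ≠ c) (d5 : c' ≠ a) (d6 : c' ≠ b)
    (d7 : a' ≠ b') (d8 : b' ≠ c') (d9 : a' ≠ c') : False := by
  have hba := adjN_symm t a b hab
  have hca := adjN_symm t a c hac
  have hcb := adjN_symm t b c hbc
  have la := low t a b c a' hab hac haa hbc.1 d1 d2
  have lb := low t b a c b' hba hbc hbb hac.1 d3 d4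
  have lc := low t c a b c' hca hcb hcc hab.1 d5 d6
  have a0 := hub t a b c ht hab hac hbc lb lc
  have b0 := hub t b a c ht hba hbc hac la lc
  have c0 := hub t c a b ht hca hcb hab la lb
  have a1 : 2 * t ≤ a := by omega
  have b1 : 2 * t ≤ b := by omega
  have c1 : 2 * t ≤ c := by omega
  have nab := hab.1
  have nbc := hbc.1
  have nac := hac.1
  have naa := haa.1
  have nbb := hbb.1
  have ncc := hcc.1
  -- two of the three are larger than `2t`
  rcases (by omega : (2 * t + 1 ≤ a ∧ 2 * t + 1 ≤ b) ∨ (2 * t + 1 ≤ a ∧ 2 * t + 1 ≤ c) ∨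
      (2 * t + 1 ≤ b ∧ 2 * t + 1 ≤ c)) with ⟨g1, g2⟩ | ⟨g1, g2⟩ | ⟨g1, g2⟩
  · have k1 := high t a a' haa g1
    have k2 := high t b b' hbb g2
    exact pigeon (2 * t) a b c a' b' (by omega) (by omega) (by omega) (by omega) (by omega)
      nab nac naa d3.symm nbc d1.symm nbb d2.symm d4.symm d7
  · have k1 := high t a a' haa g1
    have k2 := high t c c' hcc g2
    exact pigeon (2 * t) a b c a' c' (by omega) (by omega) (by omega) (by omega) (by omega)
      nab nac naa d5.symm nbc d1.symm d6.symm d2.symm ncc d9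
  · have k1 := high t b b' hbb g1
    have k2 := high t c c' hcc g2
    exact pigeon (2 * t) a b c b' c' (by omega) (by omega) (by omega) (by omega) (by omega)
      nab nac d3.symm d5.symm nbc nbb d6.symm d4.symm ncc d8

lemma G_free (t : ℕ) (ht : 1 ≤ t) : ¬ net.IsContained (G t) := by
  rintro ⟨f⟩
  have hadj : ∀ i j : Fin 6, net.Adj i j → adjN t (f i).val (f j).val := fun i j h => f.toHom.map_rel h
  have hinj : ∀ i j : Fin 6, i ≠ j → (f i).val ≠ (f j).val := by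
    intro i j hij h
    exact hij (f.injective' (Fin.ext h))
  exact no_net t (f 0).val (f 1).val (f 2).val (f 3).val (f 4).val (f 5).val
    ht (f 0).isLt (f 1).isLt (f 2).isLt (f 3).isLt (f 4).isLt (f 5).isLt
    (hadj 0 1 (by simp [net])) (hadj 1 2 (by simp [net])) (hadj 0 2 (by simp [net]))
    (hadj 0 3 (by simp [net])) (hadj 1 4 (by simp [net])) (hadj 2 5 (by simp [net]))
    (hinj 3 1 (by decide)) (hinj 3 2 (by decide)) (hinj 4 0 (by decide)) (hinj 4 2 (by decide))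
    (hinj 5 0 (by decide)) (hinj 5 1 (by decide)) (hinj 3 4 (by decide)) (hinj 4 5 (by decide))
    (hinj 3 5 (by decide))

/-- Building a copy of the net. -/
lemma mk_net {V : Type} (K : SimpleGraph V) (g : Fin 6 → V) (hg : Function.Injective g)
    (h01 : K.Adj (g 0) (g 1)) (h12 : K.Adj (g 1) (g 2)) (h02 : K.Adj (g 0) (g 2))
    (h03 : K.Adj (g 0) (g 3)) (h14 : K.Adj (g 1) (g 4)) (h25 : K.Adj (g 2) (g 5)) :
    net.IsContained K := by
  refine ⟨⟨⟨g, ?_⟩, hg⟩⟩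
  intro i j hij
  obtain ⟨h1, h2⟩ := hij
  fin_cases i <;> fin_cases j <;>
    first
    | exact h01 | exact h12 | exact h02 | exact h03 | exact h14 | exact h25
    | exact h01.symm | exact h12.symm | exact h02.symm | exact h03.symm | exact h14.symm
    | exact h25.symm
    | (exfalso; simp at h1 h2)

/-- Adjacency after adding `uv`, on natural numbers. -/
def adjP (t u v i j : ℕ) : Prop := adjN t i j ∨ (i = u ∧ j = v) ∨ (i = v ∧ j = u)

lemma mk_netN (t : ℕ) (u v : Fin (2 * t + 4)) (huv : u ≠ v) (a b c a' b' c' : ℕ)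
    (ha : a < 2 * t + 4) (hb : b < 2 * t + 4) (hc : c < 2 * t + 4)
    (ha' : a' < 2 * t + 4) (hb' : b' < 2 * t + 4) (hc' : c' < 2 * t + 4)
    (h01 : adjP t u v a b) (h12 : adjP t u v b c) (h02 : adjP t u v a c)
    (h03 : adjP t u v a a') (h14 : adjP t u v b b') (h25 : adjP t u v c c')
    (e1 : a ≠ b ∧ a ≠ c ∧ a ≠ a' ∧ a ≠ b' ∧ a ≠ c' ∧ b ≠ c ∧ b ≠ a' ∧ b ≠ b' ∧ b ≠ c' ∧
      c ≠ a' ∧ c ≠ b' ∧ c ≠ c' ∧ a' ≠ b' ∧ a' ≠ c' ∧ b' ≠ c') :
    net.IsContained (G t ⊔ SimpleGraph.edge u v) := by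
  have hP : ∀ (i j : ℕ) (hi : i < 2 * t + 4) (hj : j < 2 * t + 4), adjP t u v i j →
      (G t ⊔ SimpleGraph.edge u v).Adj ⟨i, hi⟩ ⟨j, hj⟩ := by
    intro i j hi hj h
    rw [SimpleGraph.sup_adj, SimpleGraph.edge_adj]
    rcases h with h | ⟨h, h'⟩ | ⟨h, h'⟩
    · exact Or.inl h
    · refine Or.inr ⟨Or.inl ⟨Fin.ext h, Fin.ext h'⟩, ?_⟩
      intro hc
      have : (⟨i, hi⟩ : Fin (2 * t + 4)).val = (⟨j, hj⟩ : Fin (2 * t + 4)).val := by rw [hc]
      apply huv
      apply Fin.ext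
      simp only at this
      omega
    · refine Or.inr ⟨Or.inr ⟨Fin.ext h, Fin.ext h'⟩, ?_⟩
      intro hc
      have : (⟨i, hi⟩ : Fin (2 * t + 4)).val = (⟨j, hj⟩ : Fin (2 * t + 4)).val := by rw [hc]
      apply huv
      apply Fin.ext
      simp only at this
      omega
  obtain ⟨f1, f2, f3, f4, f5, f6, f7, f8, f9, f10, f11, f12, f13, f14, f15⟩ := e1
  apply mk_net _ ![⟨a, ha⟩, ⟨b, hb⟩, ⟨c, hc⟩, ⟨a', ha'⟩, ⟨b', hb'⟩, ⟨c', hc'⟩]
  · intro i j hij
    fin_cases i <;> fin_cases j <;> simp at hij <;> first | rfl | (exfalso; omega)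
  · exact hP _ _ _ _ h01
  · exact hP _ _ _ _ h12
  · exact hP _ _ _ _ h02
  · exact hP _ _ _ _ h03
  · exact hP _ _ _ _ h14
  · exact hP _ _ _ _ h25

lemma G_sat_lt (t : ℕ) (ht : 3 ≤ t) (u v : Fin (2 * t + 4)) (huv : u.val < v.val)
    (hn : ¬ (G t).Adj u v) : net.IsContained (G t ⊔ SimpleGraph.edge u v) := by
  have hn' : ¬ adjN t u.val v.val := hn
  have hu := u.isLt
  have hv := v.isLt
  have hne : u ≠ v := fun h => by rw [h] at huv; omega
  by_cases hv1 : v.val ≤ 2 * t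
  · -- both are rim vertices of different triangles
    have hu0 : 1 ≤ u.val := by
      by_contra h
      apply hn'
      unfold adjN
      omega
    have hpair : (u.val + 1) / 2 ≠ (v.val + 1) / 2 := by
      intro h
      apply hn'
      unfold adjN
      omega
    -- a third rim vertex
    obtain ⟨x, hx1, hx2, hx3, hx4⟩ : ∃ x, 1 ≤ x ∧ x ≤ 2 * t ∧ (x + 1) / 2 ≠ (u.val + 1) / 2 ∧
        (x + 1) / 2 ≠ (v.val + 1) / 2 := by
      by_cases h1 : (u.val + 1) / 2 ≠ 1 ∧ (v.val + 1) / 2 ≠ 1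
      · exact ⟨1, by omega, by omega, by omega, by omega⟩
      · by_cases h2 : (u.val + 1) / 2 ≠ 2 ∧ (v.val + 1) / 2 ≠ 2
        · exact ⟨3, by omega, by omega, by omega, by omega⟩
        · exact ⟨5, by omega, by omega, by omega, by omega⟩
    obtain ⟨pu1, pu2, pu3, pu4⟩ := pt_spec t u.val hu0 (by omega)
    obtain ⟨pv1, pv2, pv3, pv4⟩ := pt_spec t v.val (by omega) hv1
    generalize pt u.val = pu at *
    generalize pt v.val = pv at *
    refine mk_netN t u v hne 0 u.val v.val x pu pv (by omega) (by omega) (by omega) (by omega)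
      (by omega) (by omega) ?_ ?_ ?_ ?_ ?_ ?_ ⟨?_, ?_, ?_, ?_, ?_, ?_, ?_, ?_, ?_, ?_, ?_, ?_, ?_,
        ?_, ?_⟩ <;> first | omega | (unfold adjP adjN; omega)
  · by_cases hu0 : u.val = 0
    · -- hub to the `K_4`
      obtain ⟨y, z, hy1, hy2, hz1, hz2, h3, h4, h5⟩ : ∃ y z, 2 * t + 1 ≤ y ∧ y < 2 * t + 4 ∧
          2 * t + 1 ≤ z ∧ z < 2 * t + 4 ∧ y ≠ z ∧ y ≠ v.val ∧ z ≠ v.val := by
        by_cases h1 : v.val = 2 * t + 1
        · exact ⟨2 * t + 2, 2 * t + 3, by omega, by omega, by omega, by omega, by omega, by omega,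
            by omega⟩
        · by_cases h2 : v.val = 2 * t + 2
          · exact ⟨2 * t + 1, 2 * t + 3, by omega, by omega, by omega, by omega, by omega,
              by omega, by omega⟩
          · exact ⟨2 * t + 1, 2 * t + 2, by omega, by omega, by omega, by omega, by omega,
              by omega, by omega⟩
      refine mk_netN t u v hne 0 v.val (2 * t) 1 y z (by omega) (by omega) (by omega) (by omega)
        (by omega) (by omega) ?_ ?_ ?_ ?_ ?_ ?_ ⟨?_, ?_, ?_, ?_, ?_, ?_, ?_, ?_, ?_, ?_, ?_, ?_, ?_,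
        ?_, ?_⟩ <;> first | omega | (unfold adjP adjN; omega)
    · obtain ⟨y, z, hy1, hy2, hz1, hz2, h3, h4, h5⟩ : ∃ y z, 2 * t + 1 ≤ y ∧ y < 2 * t + 4 ∧
          2 * t + 1 ≤ z ∧ z < 2 * t + 4 ∧ y ≠ z ∧ y ≠ v.val ∧ z ≠ v.val := by
        by_cases h1 : v.val = 2 * t + 1
        · exact ⟨2 * t + 2, 2 * t + 3, by omega, by omega, by omega, by omega, by omega, by omega,
            by omega⟩
        · by_cases h2 : v.val = 2 * t + 2
          · exact ⟨2 * t + 1, 2 * t + 3, by omega, by omega, by omega, by omega, by omega,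
              by omega, by omega⟩
          · exact ⟨2 * t + 1, 2 * t + 2, by omega, by omega, by omega, by omega, by omega,
              by omega, by omega⟩
      have hu2 : u.val < 2 * t := by
        by_contra h
        apply hn'
        unfold adjN
        omega
      by_cases hu3 : u.val = 2 * t - 1
      · refine mk_netN t u v hne u.val v.val (2 * t) 0 y z (by omega) (by omega) (by omega)
          (by omega) (by omega) (by omega) ?_ ?_ ?_ ?_ ?_ ?_ ⟨?_, ?_, ?_, ?_, ?_, ?_, ?_, ?_, ?_,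
          ?_, ?_, ?_, ?_, ?_, ?_⟩ <;> first | omega | (unfold adjP adjN; omega)
      · refine mk_netN t u v hne v.val y (2 * t) u.val z 0 (by omega) (by omega) (by omega)
          (by omega) (by omega) (by omega) ?_ ?_ ?_ ?_ ?_ ?_ ⟨?_, ?_, ?_, ?_, ?_, ?_, ?_, ?_, ?_,
          ?_, ?_, ?_, ?_, ?_, ?_⟩ <;> first | omega | (unfold adjP adjN; omega)

lemma G_sat (t : ℕ) (ht : 3 ≤ t) : Saturated net (G t) := by
  refine ⟨G_free t (by omega), ?_⟩
  intro u v huv hn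
  rcases lt_or_gt_of_ne (fun h => huv (Fin.ext h) : u.val ≠ v.val) with h | h
  · exact G_sat_lt t ht u v h hn
  · have := G_sat_lt t ht v u h (fun h' => hn h'.symm)
    rwa [SimpleGraph.edge_comm] at this

/-- The three edges to be exchanged. -/
lemma edges_eq (t : ℕ) (ht : 3 ≤ t) : (G t).edgeSet.ncard = (H (2 * t + 4)).edgeSet.ncard := by
  classical
  set z : Fin (2 * t + 4) := ⟨0, by omega⟩ with hz
  set w : Fin (2 * t + 4) := ⟨2 * t, by omega⟩ with hw
  set p : Fin (2 * t + 4) := ⟨2 * t + 1, by omega⟩ with hp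
  set q : Fin (2 * t + 4) := ⟨2 * t + 2, by omega⟩ with hq
  set r : Fin (2 * t + 4) := ⟨2 * t + 3, by omega⟩ with hr
  set A : Set (Sym2 (Fin (2 * t + 4))) := {s(z, p), s(z, q), s(z, r)} with hA
  set B : Set (Sym2 (Fin (2 * t + 4))) := {s(w, p), s(w, q), s(w, r)} with hB
  have three : ∀ x y₁ y₂ y₃ : Fin (2 * t + 4), x ≠ y₁ → x ≠ y₂ → x ≠ y₃ → y₁ ≠ y₂ → y₁ ≠ y₃ →
      y₂ ≠ y₃ → ({s(x, y₁), s(x, y₂), s(x, y₃)} : Set (Sym2 (Fin (2 * t + 4)))).ncard = 3 := by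
    intro x y₁ y₂ y₃ h1 h2 h3 h4 h5 h6
    rw [Set.ncard_eq_three]
    refine ⟨s(x, y₁), s(x, y₂), s(x, y₃), ?_, ?_, ?_, rfl⟩
    · rw [Ne, Sym2.eq_iff]; rintro (⟨-, h⟩ | ⟨h, -⟩); exacts [h4 h, h2 h]
    · rw [Ne, Sym2.eq_iff]; rintro (⟨-, h⟩ | ⟨h, -⟩); exacts [h5 h, h3 h]
    · rw [Ne, Sym2.eq_iff]; rintro (⟨-, h⟩ | ⟨h, -⟩); exacts [h6 h, h3 h]
  have ne : ∀ (x y : ℕ) (hx : x < 2 * t + 4) (hy : y < 2 * t + 4), x ≠ y →
      (⟨x, hx⟩ : Fin (2 * t + 4)) ≠ ⟨y, hy⟩ := by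
    intro x y hx hy h h'
    exact h (Fin.mk.inj_iff.1 h')
  have hA3 : A.ncard = 3 := by
    apply three <;> (apply ne; omega)
  have hB3 : B.ncard = 3 := by
    apply three <;> (apply ne; omega)
  have hAH : A ⊆ (H (2 * t + 4)).edgeSet := by
    intro e he
    rcases he with rfl | rfl | rfl <;>
    · rw [SimpleGraph.mem_edgeSet]
      exact ⟨by apply ne; omega, Or.inl rfl⟩
  have hset : (G t).edgeSet = ((H (2 * t + 4)).edgeSet \ A) ∪ B := by
    ext e
    induction e using Sym2.ind with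
    | _ x y =>
      have hx := x.isLt
      have hy := y.isLt
      simp only [SimpleGraph.mem_edgeSet, Set.mem_union, Set.mem_sdiff, hA, hB,
        Set.mem_insert_iff, Set.mem_singleton_iff, Sym2.eq_iff, Fin.ext_iff, hz, hw, hp, hq, hr]
      have h1 : (G t).Adj x y ↔ adjN t x.val y.val := Iff.rfl
      have h2 : (H (2 * t + 4)).Adj x y ↔ x ≠ y ∧ (x.val = 0 ∨ y.val = 0 ∨
        ((x.val + 1) / 2 = (y.val + 1) / 2 ∧ x.val + 4 ≤ 2 * t + 4 ∧ y.val + 4 ≤ 2 * t + 4) ∨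
        (2 * t + 4 ≤ x.val + 3 ∧ 2 * t + 4 ≤ y.val + 3)) := Iff.rfl
      rw [h1, h2, Ne, Fin.ext_iff]
      unfold adjN
      constructor
      · intro h
        omega
      · intro h
        omega
  have hdisj : Disjoint ((H (2 * t + 4)).edgeSet \ A) B := by
    rw [Set.disjoint_left]
    rintro e ⟨he, -⟩ heB
    rcases heB with rfl | rfl | rfl <;>
    · rw [SimpleGraph.mem_edgeSet] at he
      obtain ⟨h1, h2⟩ := he
      simp only [hw, hp, hq, hr] at h2
      omega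
  rw [hset, Set.ncard_union_eq hdisj (Set.toFinite _) (Set.toFinite _), hB3]
  have := Set.ncard_sdiff_add_ncard_of_subset hAH (Set.toFinite _)
  rw [hA3] at this
  exact this

lemma not_iso (t : ℕ) (ht : 3 ≤ t) : IsEmpty (G t ≃g H (2 * t + 4)) := by
  constructor
  intro f
  -- the preimage of the hub of `H` is adjacent to everything
  have hall : ∀ y : Fin (2 * t + 4), y ≠ f.symm ⟨0, by omega⟩ →
      (G t).Adj (f.symm ⟨0, by omega⟩) y := by
    intro y hy
    rw [← f.map_adj_iff, f.apply_symm_apply]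
    refine ⟨?_, Or.inl rfl⟩
    intro h
    apply hy
    rw [h, f.symm_apply_apply]
  set x := f.symm ⟨0, by omega⟩ with hx
  have hxlt := x.isLt
  by_cases h0 : x.val = 0
  · have h1 := hall ⟨2 * t + 1, by omega⟩ (by
      intro h
      have := congrArg Fin.val h
      simp only at this
      omega)
    have h2 : adjN t x.val (2 * t + 1) := h1
    unfold adjN at h2
    omega
  · by_cases h1 : x.val ≤ 2 * t - 1
    · have h1 := hall ⟨2 * t + 1, by omega⟩ (by
        intro h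
        have := congrArg Fin.val h
        simp only at this
        omega)
      have h2 : adjN t x.val (2 * t + 1) := h1
      unfold adjN at h2
      omega
    · have h1 := hall ⟨1, by omega⟩ (by
        intro h
        have := congrArg Fin.val h
        simp only at this
        omega)
      have h2 : adjN t x.val 1 := h1
      unfold adjN at h2
      omega

/-- For every even `n ≥ 10` there is a `K_3^3`-saturated graph with as many edges as `H_n` that is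
not isomorphic to `H_n`; hence `SAT(n, K_3^3) = {H_n}` fails for arbitrarily large even `n`
(in fact for every even `n ≥ 10`). -/
theorem result :
    (∀ t : ℕ, 3 ≤ t → ∃ K : SimpleGraph (Fin (2 * t + 4)), Saturated net K ∧
      K.edgeSet.ncard = (H (2 * t + 4)).edgeSet.ncard ∧ IsEmpty (K ≃g H (2 * t + 4))) ∧
    (∀ n : ℕ, 10 ≤ n → Even n →
      ¬ ∀ K : SimpleGraph (Fin n), InSAT n K ↔ Nonempty (K ≃g H n)) ∧
    ¬ ∃ k : ℕ, ∀ n : ℕ, k ≤ n → Even n →
      ∀ K : SimpleGraph (Fin n), InSAT n K ↔ Nonempty (K ≃g H n) := by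
  have h1 : ∀ t : ℕ, 3 ≤ t → ∃ K : SimpleGraph (Fin (2 * t + 4)), Saturated net K ∧
      K.edgeSet.ncard = (H (2 * t + 4)).edgeSet.ncard ∧ IsEmpty (K ≃g H (2 * t + 4)) :=
    fun t ht => ⟨G t, G_sat t ht, edges_eq t ht, not_iso t ht⟩
  have h2 : ∀ n : ℕ, 10 ≤ n → Even n →
      ¬ ∀ K : SimpleGraph (Fin n), InSAT n K ↔ Nonempty (K ≃g H n) := by
    intro n hn he h
    obtain ⟨k, hk⟩ := he
    obtain ⟨t, rfl⟩ : ∃ t, n = 2 * t + 4 := ⟨k - 2, by omega⟩
    obtain ⟨K, hK1, hK2, hK3⟩ := h1 t (by omega)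
    have hH : InSAT (2 * t + 4) (H (2 * t + 4)) := (h _).2 ⟨SimpleGraph.Iso.refl⟩
    have hK : InSAT (2 * t + 4) K := ⟨hK1, hK2.trans hH.2⟩
    obtain ⟨f⟩ := (h K).1 hK
    exact hK3.false f
  refine ⟨h1, h2, ?_⟩
  rintro ⟨k, hk⟩
  exact h2 (2 * (k + 5)) (by omega) ⟨k + 5, by ring⟩ (hk (2 * (k + 5)) (by omega) ⟨k + 5, by ring⟩)

end Pool.Agent.Results.MP_645dd0_co.NotUnique
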